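import Pool.Agent.DSU.Main2

/-!
Exact counters whose trace is a decomposable circuit with bounded subtraction: exponential lower
bounds for monotone 2-CNFs and their negations, and the Dalvi-Suciu dichotomy for query lineages,
unconditionally.
-/

set_option autoImplicit false

namespace Pool.Agent.Results.MP_4ed1f9_lc.CounterDichotomy

open DSD (ReadOnce bv ind Mean Ep)
open DSU

/-- (1) Let `q` be a conjunctive query without self-joins; then it is reduced. If it is hierarchical
then for every database `D` the lineage of `q` is computed by a read-once formula, and there is a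
d-DNNF with at most `8 |D| + 2` gates which computes the lineage and its negation.
(2) For all `d`, `γ > 0`, `ε > 0` there are constants `p`, `c`, `n₀` such that for every graph `G`
with `N ≥ n₀` vertices and degrees at most `d` where every set of at most `ε N` vertices spans few
edges (`Spread`) the 2-DNF `PhiG` (some edge has both ends true) and the 2-CNF `1 - PhiG` are `Hard`
with the budget `2 ^ (c N)`, if every bit is true with probability `p`. There are such graphs (with
`d = 16`, `γ = 1/4` and some `ε`) with `32 n` vertices for all `n ≥ 1`.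
(3) There are constants `p`, `c`, `C` such that for all `n ≥ 1`, every reduced union `Q` of
conjunctive queries (self-joins allowed) and every `q ∈ Q` which is not hierarchical there is a
database `D` with at most `C |q| n` facts, where every fact has the probability `p` or `1`, such that
the lineage is a monotone DNF with at most `C n` terms of at most `|q|` facts, and is `Hard` with the
budget `2 ^ (c n)`. -/
theorem result :
    (∀ q : CQ, SJF q → Reduced {q} ∧
      (Hier q → ∀ D : Finset Fact, (∃ S ⊆ D, ReadOnce S (lin {q} D)) ∧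
        ∃ L : List (Gate Fact), Circ 1 L ∧ DetCirc L ∧ L.length ≤ 8 * D.card + 2 ∧
          (∃ g ∈ L, ∀ x, g.f x = bv (lin {q} D x)) ∧
          ∃ g ∈ L, ∀ x, g.f x = 1 - bv (lin {q} D x))) ∧
    (∀ (d : ℕ) (γ ε : ℝ), 0 < γ → 0 < ε → ∃ (p c : ℝ) (n₀ : ℕ), 0 < p ∧ p < 1 ∧ 0 < c ∧
      ∀ (V : Type) [Fintype V] [DecidableEq V] (G : SimpleGraph V), n₀ ≤ Fintype.card V →
        Spread G d γ ε →
        0 < (Ep (fun _ => p) fun x => 1 - PhiG G x) ∧
        Hard (Ep fun _ => p) (PhiG G) (fun _ => True) (c * Fintype.card V)) ∧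
    (∃ ε : ℝ, 0 < ε ∧ ∀ n : ℕ, 1 ≤ n → ∃ (V : Type) (_ : Fintype V) (_ : DecidableEq V)
      (G : SimpleGraph V), Fintype.card V = 32 * n ∧ (∀ v, {u | G.Adj v u}.ncard = 16) ∧
        Spread G 16 (1 / 4) ε) ∧
    ∃ p c C : ℝ, 0 < p ∧ p < 1 ∧ 0 < c ∧ ∀ n : ℕ, 1 ≤ n →
      ∀ Q : UCQ, Reduced Q → ∀ q ∈ Q, ¬ Hier q →
        ∃ (D : Finset Fact) (t : Fact → ℝ) (T : Finset (Finset Fact)),
          (D.card : ℝ) ≤ C * q.card * n ∧ (∀ f ∈ D, t f = p ∨ t f = 1) ∧
          ((T.card : ℝ) ≤ C * n ∧ (∀ s ∈ T, s.card ≤ q.card) ∧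
            ∀ x : Fact → Bool, lin Q D x = true ↔ ∃ s ∈ T, ∀ f ∈ s, x f = true) ∧
          0 < (Mean D t fun x => 1 - bv (lin Q D x)) ∧
          Hard (Mean D t) (fun x => bv (lin Q D x)) (fun x => ∃ W ⊆ D, x = ind W) (c * n) :=
  DSU.main2

end Pool.Agent.Results.MP_4ed1f9_lc.CounterDichotomy
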