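import Pool.Agent.EXB.Low
import Pool.Agent.EXB.Mix
import Pool.Agent.EXB.Tau
import Pool.Agent.EXB.Pdc
import Pool.Agent.EXB.Dgr
import Pool.Agent.EXB.Mea
import Pool.Agent.EXB.Omg
import Pool.Agent.EXB.Wal
import Pool.Agent.EXB.Key
import Pool.Agent.EXB.Row
import Pool.Agent.EXB.Neg
import Pool.Agent.EXB.Rec
import Pool.Agent.EXB.Ind
import Pool.Agent.EXB.Fin
import Pool.Agent.EXB.Upp
import Pool.Agent.EXB.Bld
import Pool.Agent.EXB.Dya
import Pool.Agent.EXB.Dyn
import Pool.Agent.EXB.Cls
import Pool.Agent.EXB.Uni
import Pool.Agent.EXB.Bool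
import Pool.Agent.EXB.Col
import Pool.Agent.EXB.DG
import Pool.Agent.EXB.Asm
import Pool.Agent.EXB.Sup
import Pool.Agent.EXB.Ari
import Pool.Agent.EXB.Apx
import Pool.Agent.EXB.TrK
import Pool.Agent.EXB.Top
import Pool.Agent.EXB.PeK
import Pool.Agent.EXB.PeG
import Pool.Agent.EXB.InU
import Pool.Agent.EXB.TrA

/-!
# MP_4ed1f9_lc: the exact base of treewidth for dynamic programming, without SETH

For every finite graph `H` (loops allowed) the list homomorphisms from a graph of treewidth or
pathwidth `w` to `H` are counted with deterministic decomposable circuits, their partition function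
is computed by monotone arithmetic circuits, and optimal ones are found by (max, +) circuits, of size
`O(n) * irr H ^ (w + 1)`; and `irr H ^ w / 2` gates and wires are necessary in each of these models
(even without determinism, even if almost all homomorphisms may be missed, and even up to a constant
factor or an additive constant). For independent sets (monotone 2-CNF formulas) `irr H = 2`, for
proper `q`-colourings with `q ≥ 3` it is `q`.
For the maximum weight of independent sets the base is 2 for (max, +) circuits.

The definitions are in `Pool/Agent/EXB/Defs.lean`, `Pool/Agent/EXB/DefsT.lean`, and, for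
`Zf`, `Arith.Approx`, `MaxPlus.Approx`, `MaxPlus.ApproxInd` and `MaxPlus.SolvesInd`, in
`Pool/Agent/EXB/StK.lean` and `Pool/Agent/EXB/StN.lean`.
-/

set_option autoImplicit false

namespace Pool.Agent.Results.MP_4ed1f9_lc.ExactBase

open Pool.Agent.EXB

/-- Let `D` be a finite nonempty set of colours and `H` a symmetric relation on `D`.
(1) There is `C` such that for all `w ≥ 1` there are a connected graph `G` with at most `C * w ^ 4`
vertices, degrees at most `C` and a path decomposition of width at most `w + C`, and a probability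
measure `μ` on the homomorphisms from `G` to `H`, such that for every set `X` of homomorphisms at
least `μ X * irr H ^ w / 2` gates and wires are necessary
in union / product circuits with output `X` whose leaves are arbitrary sets of assignments on at
most `w ^ 3` variables;
in monotone arithmetic circuits which compute the partition function
`∑ f ∈ X, ∏ v, x (v, f v)` up to a constant factor for all weights `x > 0`;
in (max, +) circuits which compute `max {∑ v, x (v, f v) | f ∈ X}` up to an additive constant for
all weights `x ≥ 0`.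
(2) There is `C` such that for all connected graphs `G` with `N`-node tree decompositions of width
`t` and all lists `L`, the set `X` of all list homomorphisms is the output of a deterministic smooth
union / product circuit with leaves on one variable, `∑ f ∈ X, ∏ v, x (v, f v)` is computed by a
monotone arithmetic circuit, and `max {∑ v, x (v, f v) | f ∈ X}` is computed for all real weights
by a (max, +) circuit, of size at most `C * (|V| + N) * irr H ^ (t + 1)`.
(3) `irr H = 1` iff every component of `H` is a complete bipartite graph or a complete graph with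
all loops (Dyer and Greenhill's tractable case). For independent sets `irr H = 2`; for proper
`q`-colourings, `q ≥ 3`, `irr H = q`.
(4) There is `C` such that for all `w ≥ 1` there is a connected graph `G` with at most `C * w ^ 4`
vertices, degrees at most `C` and a path decomposition of width at most `w + C`, such that every
(max, +) circuit which computes the maximum weight of the independent sets of `G` up to an additive
constant for all nonnegative vertex weights has size at least `2 ^ w / 2`; and for all connected
graphs `G` with `N`-node tree decompositions of width `t` there is an exact circuit (for all real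
weights) of size at most `C * (|V| + N) * 2 ^ (t + 1)`. -/
theorem result :
    (∀ (D : Type) [Fintype D] [Nonempty D] (H : D → D → Prop), (∀ a b, H a b → H b a) →
      (∃ C : ℕ, ∀ w : ℕ, 1 ≤ w → ∃ (V : Type) (_ : Fintype V) (G : SimpleGraph V)
        (μ : (V → D) → ℝ), Fintype.card V ≤ C * w ^ 4 ∧ (∀ v, (G.neighborSet v).ncard ≤ C) ∧
        G.Connected ∧ PathDec G (w + C) ∧ (∀ f, 0 ≤ μ f) ∧
        (∀ f, f ∉ Hom H G (fun _ => Set.univ) → μ f = 0) ∧ (∑ᶠ f, μ f = 1) ∧
        ∀ X ⊆ Hom H G (fun _ => Set.univ),
          (∀ Q : Circ V D, Q.Ok (w ^ 3) → Q.X Q.out = X →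
            (∑ᶠ f ∈ X, μ f) * (irr H : ℝ) ^ w ≤ 2 * Q.size) ∧
          (∀ A : Arith V D, A.Ok → A.Approx X →
            (∑ᶠ f ∈ X, μ f) * (irr H : ℝ) ^ w ≤ 2 * A.size) ∧
          ∀ T : MaxPlus V D, T.Ok → T.Approx X →
            (∑ᶠ f ∈ X, μ f) * (irr H : ℝ) ^ w ≤ 2 * T.size) ∧
      (∃ C : ℕ, ∀ (V : Type) [Fintype V] (G : SimpleGraph V) (L : V → Set D) (N t : ℕ),
        G.Connected → Nonempty (TreeDec G N t) →
        (∃ Q : Circ V D, Q.Ok 1 ∧ Q.Det 1 ∧ Q.sc Q.out = Finset.univ ∧ Q.X Q.out = Hom H G L ∧
          Q.size ≤ C * (Fintype.card V + N) * irr H ^ (t + 1)) ∧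
        (∃ A : Arith V D, A.Ok ∧
          A.P A.out = ∑ᶠ f ∈ Hom H G L, MvPolynomial.monomial (mono f) (1 : NNReal) ∧
          A.size ≤ C * (Fintype.card V + N) * irr H ^ (t + 1)) ∧
        ∃ T : MaxPlus V D, T.Ok ∧ T.Solves (Hom H G L) ∧
          T.size ≤ C * (Fintype.card V + N) * irr H ^ (t + 1)) ∧
      (irr H = 1 ↔ ∀ a b c d, H a b → H b c → H c d → H a d)) ∧
    (irr IndSet = 2 ∧ ∀ q : ℕ, 3 ≤ q → irr (fun a b : Fin q => a ≠ b) = q) ∧
    ∃ C : ℕ,
      (∀ w : ℕ, 1 ≤ w → ∃ (V : Type) (_ : Fintype V) (G : SimpleGraph V),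
        Fintype.card V ≤ C * w ^ 4 ∧ (∀ v, (G.neighborSet v).ncard ≤ C) ∧
        G.Connected ∧ PathDec G (w + C) ∧
        ∀ T : MaxPlus V Unit, T.Ok → T.ApproxInd G → 2 ^ w ≤ 2 * T.size) ∧
      ∀ (V : Type) [Fintype V] (G : SimpleGraph V) (N t : ℕ), G.Connected →
        Nonempty (TreeDec G N t) →
        ∃ T : MaxPlus V Unit, T.Ok ∧ T.SolvesInd G Set.univ ∧
          T.size ≤ C * (Fintype.card V + N) * 2 ^ (t + 1) := by
  have hL : Lower := thm_Low thm_Mix thm_Tau thm_Pdc thm_Dgr (thm_Mea thm_Omg) thm_Omg
    (thm_Wal thm_Key) thm_Row thm_Neg thm_Rec thm_Ind thm_Fin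
  have hU : Upper := thm_Upp thm_Bld thm_Dya thm_Dyn thm_Cls thm_Uni
  have hL' : LowerDP := asm_lower hL thm_Sup thm_Apx thm_TrK thm_Top
  have hU' : UpperDP := asm_upper hU thm_Ari thm_TrA
  exact ⟨fun D _ _ H hH => ⟨hL' D H hH, hU' D H hH, thm_DG D H hH⟩, ⟨thm_Bool, thm_Col⟩,
    asm_ind hL' hU' thm_Bool thm_PeK thm_PeG thm_InU⟩

end Pool.Agent.Results.MP_4ed1f9_lc.ExactBase
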