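import Pool.Agent.SFR.Pln
import Pool.Agent.SFR.Sup
import Pool.Agent.SFR.Opt
import Pool.Agent.SFR.WlkG
import Pool.Agent.SFP.FinX
import Pool.Agent.SFP.Cnv
import Pool.Agent.SFP.Dvi
import Pool.Agent.SFP.SupK
import Pool.Agent.SFP.Yan
import Pool.Agent.SFP.Sbc
import Pool.Agent.SFP.Cov
import Pool.Agent.SFP.KWC
import Pool.Agent.SFP.Prm
import Pool.Agent.SFP.Thn
import Pool.Agent.SFP.Enc
import Pool.Agent.SFP.DecC
import Pool.Agent.SFP.Haf
import Pool.Agent.SFP.Mat
import Pool.Agent.STP.Two
import Pool.Agent.STP.Cor
import Pool.Agent.STP.Bad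
import Pool.Agent.STP.Cnt
import Pool.Agent.STS.SumL
import Pool.Agent.STS.PthL
import Pool.Agent.STS.CylL
import Pool.Agent.STS.NodL
import Pool.Agent.STS.Scl
import Pool.Agent.STS.Afd
import Pool.Agent.STS.Tri
import Pool.Agent.STH.One
import Pool.Agent.STH.Cls
import Pool.Agent.STH.Tup
import Pool.Agent.STH.Bal
import Pool.Agent.STH.Cyl
import Pool.Agent.STH.Nod
import Pool.Agent.STD.Den
import Pool.Agent.STD.Grd

/-!
# MP_4ed1f9_lc: `#SAT` does not reduce to permanents, hafnians, `#2`-SAT by monotone reductions

The permanent, the hafnian, the numbers of models of 2-CNFs and of Horn formulas, of independent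
sets of bipartite graphs, of bases of matroids and many other numbers are as hard to compute as
`#SAT`: the reductions which prove this use subtraction. With the constant `-1` as a weight a single
query about a 2-CNF gives the weighted number of models of any CNF, and up to a factor of `2` a
single query about a 2-CNF and a single division are enough. Here we consider reductions from
weighted `#SAT` which may ask any number of adaptive queries, to all these problems, with weights
computed from the earlier answers, and which add and multiply, but do not subtract or divide; all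
values, the answers to the queries and the final result need only be correct up to constant factors.
(So a subtraction is allowed if it loses at most a constant factor, for all weights.) Such
reductions are unconditionally exponential: for queries about 2-CNFs, Horn formulas and linear
equations they are not much shorter than the list of all models (this is the strong exponential time
hypothesis for these reductions); for queries about these and about all relations with a small
linear program or with a small neighbourhood for local search the exponent is of the order of the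
square root of the number of variables.
-/

set_option autoImplicit false

namespace Pool.Agent.Results.MP_4ed1f9_lc.MonotoneReductions

/-- A formula with `M` clauses in `n` variables: a sequence of `M` clauses, a clause being a
sequence of `k` literals; the literal `(i, b)` is true at `x` if `x i = b`. -/
abbrev Formula (n k M : ℕ) := Fin M → Fin k → Fin n × Bool

/-- The point `x` is a model of `φ`. -/
def Sat {n k M : ℕ} (φ : Formula n k M) (x : Fin n → Bool) : Prop :=
  ∀ i, ∃ j, x (φ i j).1 = (φ i j).2

open Classical in
/-- The weighted number of elements of `ψ`: the sum over all `y` in `ψ` of the product of the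
weights `w j (y j)`. -/
noncomputable def wcount {N : ℕ} (ψ : (Fin N → Bool) → Prop) (w : Fin N → Bool → ℝ) : ℝ :=
  ∑ y : Fin N → Bool, if ψ y then ∏ j, w j (y j) else 0

/-- The set `A` is closed under an operation `t` of three arguments which acts coordinatewise, and
which is in every coordinate one of the four operations of Schaefer: conjunction or disjunction (of
the last two arguments), majority, sum modulo 2. This is the case for the sets of solutions of Horn
formulas, dual Horn formulas, renamable Horn formulas, 2-CNFs and systems of linear equations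
modulo 2, and for the projections of such sets. -/
def SchaeferClosed {N : ℕ} (A : (Fin N → Bool) → Prop) : Prop :=
  ∃ t : Fin N → Bool → Bool → Bool → Bool,
    (∀ i, (∀ a b c, t i a b c = (b && c)) ∨ (∀ a b c, t i a b c = (b || c)) ∨
      (∀ a b c, t i a b c = ((a && b) || (a && c) || (b && c))) ∨
      (∀ a b c, t i a b c = (a ^^ b ^^ c))) ∧
    ∀ x y w, A x → A y → A w → A fun i => t i (x i) (y i) (w i)

/-- `ψ` is a union of at most `2 ^ m` sets which are closed under operations of Schaefer. -/
def SchaeferUnion (m : ℕ) {N : ℕ} (ψ : (Fin N → Bool) → Prop) : Prop :=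
  ∃ A : Fin (2 ^ m) → (Fin N → Bool) → Prop, (∀ l, SchaeferClosed (A l)) ∧ ∀ y, ψ y ↔ ∃ l, A l y

/-- The convex hull of the 0/1 points of `ψ` has an extended formulation with `q` inequalities: it
is the projection to the variables `z` of the set of solutions `(z, t)` of a system of `q` linear
inequalities and any number of linear equations. -/
def ExtendedFormulation (q : ℕ) {N : ℕ} (ψ : (Fin N → Bool) → Prop) : Prop :=
  ∃ (p r : ℕ) (A : Fin q → Fin N → ℝ) (B : Fin q → Fin p → ℝ) (d : Fin q → ℝ)
    (A' : Fin r → Fin N → ℝ) (B' : Fin r → Fin p → ℝ) (d' : Fin r → ℝ), ∀ z : Fin N → ℝ,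
    z ∈ convexHull ℝ {u : Fin N → ℝ | ∃ y, ψ y ∧ u = fun j => if y j then 1 else 0} ↔
      ∃ t : Fin p → ℝ, (∀ l, ∑ j, A l j * z j + ∑ i, B l i * t i ≤ d l) ∧
        ∀ l, ∑ j, A' l j * z j + ∑ i, B' l i * t i = d' l

/-- There are `q` properties `β · l` of the elements of `ψ` such that for all weights `g` the
elements of `ψ` which do not have the maximal weight are those which have at least one of the
properties in some set `S`. (In other words, the non-incidence matrix of faces and vertices of the
convex hull has a cover by `q` rectangles.) -/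
def Cover (q : ℕ) {N : ℕ} (ψ : (Fin N → Bool) → Prop) : Prop :=
  ∃ β : (Fin N → Bool) → Fin q → Prop, ∀ g : Fin N → Bool → ℝ, ∃ S : Fin q → Prop, ∀ y, ψ y →
    ((∃ l, S l ∧ β y l) ↔ ∃ y', ψ y' ∧ ∑ j, g j (y j) < ∑ j, g j (y' j))

/-- `y` is a permutation matrix of size `N`. The weighted number of these at the weights `a i j`
of the entries `1` and `1` of the entries `0` is the permanent of the matrix `a`. -/
def IsPerm {N : ℕ} (y : Fin (N * N) → Bool) : Prop :=
  ∃ σ : Equiv.Perm (Fin N), ∀ i j, y (finProdFinEquiv (i, j)) = decide (σ i = j)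

/-- `y` is the upper triangular incidence matrix of a perfect matching of the complete graph with
`N` vertices. The weighted number of these at the weights `a i j` of the entries `1` and `1` of the
entries `0` is the hafnian of the matrix `a`. -/
def IsMatching {N : ℕ} (y : Fin (N * N) → Bool) : Prop :=
  ∃ σ : Fin N → Fin N, (∀ i, σ i ≠ i ∧ σ (σ i) = i) ∧
    ∀ i j, y (finProdFinEquiv (i, j)) = decide (i < j ∧ σ i = j)

/-- The `m × m` matrix `x` has the entries `b i ∧ b j` above and `b i ∨ b j` below its diagonal
`b`. -/
def AndOr {m : ℕ} (x : Fin (m * m) → Bool) : Prop := ∀ i j : Fin m,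
  (i < j → x (finProdFinEquiv (i, j)) =
    (x (finProdFinEquiv (i, i)) && x (finProdFinEquiv (j, j)))) ∧
  (j < i → x (finProdFinEquiv (i, j)) =
    (x (finProdFinEquiv (i, i)) || x (finProdFinEquiv (j, j))))

/-- A monotone reduction with `s` nodes from a counting problem in `n` variables to the counting
problems of a class `K` of relations. The weights `w i b` (`i < n`, `b` a bit) are its inputs. Each
node computes a function of the weights and is
* one of the inputs `w i b`, or
* a query: up to constant factors, and for positive inputs, it is the weighted number of elements of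
  a relation `ψ` in `K`, in any number `N` of variables, at the weights `val (c j b) w` (`j < N`, `b`
  a bit) which are the values of earlier nodes.
(Sums are queries with `N = 1` and `ψ` = everything, products are queries with `N = 2` and
`ψ = {(1, 1)}`, and constants are queries with `N = 0`.) -/
structure Reduction (K : ∀ N : ℕ, ((Fin N → Bool) → Prop) → Prop) (n s : ℕ) where
  /-- the function computed by a node -/
  val : Fin s → (Fin n → Bool → ℝ) → ℝ
  /-- the rules -/
  ok : ∀ v : Fin s,
    (∃ (i : Fin n) (b : Bool), ∀ w, val v w = w i b) ∨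
    (∃ (N : ℕ) (ψ : (Fin N → Bool) → Prop) (c : Fin N → Bool → Fin s), K N ψ ∧
      (∀ j b, c j b < v) ∧ ∃ α β : ℝ, 0 < α ∧ ∀ w : Fin n → Bool → ℝ, (∀ i b, 0 < w i b) →
        α * wcount ψ (fun j b => val (c j b) w) ≤ val v w ∧
        val v w ≤ β * wcount ψ (fun j b => val (c j b) w))

/-- For all positive weights the result of the node `r` is, up to constant factors, at least the
weighted number of elements of `Y` and at most the weighted number of elements of `F`. (If
`Y = F`, it is the weighted number of elements of `F` up to a constant factor.) -/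
def Between {K : ∀ N : ℕ, ((Fin N → Bool) → Prop) → Prop} {n s : ℕ} (R : Reduction K n s)
    (r : Fin s) (Y F : (Fin n → Bool) → Prop) : Prop :=
  ∃ α β : ℝ, 0 < α ∧ ∀ w : Fin n → Bool → ℝ, (∀ i b, 0 < w i b) →
    α * wcount Y w ≤ R.val r w ∧ R.val r w ≤ β * wcount F w

/-- A monotone reduction with `s` nodes to counting for unions of `2 ^ m` sets closed under
operations of Schaefer whose result is, up to constant factors, at least the weight of `Y` and at
most the weight of `φ` exists only if `Y` has at most `L * s * 2 ^ m` elements. -/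
def HardForReductions {n k M : ℕ} (φ : Formula n k M) (L : ℝ) : Prop :=
  ∀ (m s : ℕ) (R : Reduction (fun _ ψ => SchaeferUnion m ψ) n s) (r : Fin s)
    (Y : (Fin n → Bool) → Prop), Between R r Y (Sat φ) →
    (Nat.card {x // Y x} : ℝ) ≤ L * (s * 2 ^ m)

/-- 0. With the constant `-1` one query about a 2-CNF is enough: for every formula `φ` with `M`
clauses of `k` literals in `n` variables there is a formula `ψ` with clauses of two literals in
`n + M` variables such that the weighted number of models of `φ` is the one of `ψ`, at the same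
weights and the weights `1` of `false` and `-1` of `true` for the new variables. Up to a factor of
`2` one query about a 2-CNF and one division are enough, for all positive weights and all `φ` which
have a model: the new variables get the weights `Q` of `false` and `P` of `true`, and the answer is
divided by `D`, where `P`, `Q` and `D` are short monotone expressions in the weights.

1. There are constants `C`, `D` such that the following holds for every `k ≥ 2`, with
`ε = (log k) ^ 2 / k`, for all large `n` and all `M ≥ D ε n 2 ^ k` (rounded down). All formulas `φ`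
with `M` clauses of `k` literals in `n` variables but a fraction `2 ^ (- n)` are hard for monotone
reductions to counting for unions of sets closed under operations of Schaefer, with the constant
`L = 2 ^ (C ε n)`. For all pairs of such a formula `φ` and a model of `φ` but a fraction
`2 ^ (- ε n)` (in other words, with probability `1 - 2 ^ (- ε n)` for a random formula with a
planted model), `φ` is hard in the same sense and has at least
`2 ^ (- 2 ε n) * (2 ^ n * (1 - 2 ^ (- k)) ^ M)` models. In particular, if such a reduction with
`m = 0` computes the weighted number of models of `φ` up to a constant factor, then it has at least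
`#φ / 2 ^ (C ε n)` nodes: it is not much shorter than the list of all models. For planted formulas
and the smallest `M` this is `2 ^ ((1 - O(ε)) n)`.

2. The matrices `AndOr` of size `m` are the models of a formula in `m ^ 2` variables with at most
`3 m ^ 2` clauses of `3` literals each, their number is `2 ^ m`, and the following holds for every
monotone reduction with `s` nodes to counting for unions of `2 ^ u` sets closed under operations of
Schaefer, for relations which have an extended formulation with `q` inequalities and for relations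
with covers of size `q`: if its result is at least the weight of `Y` and at most the weight of
`AndOr`, up to constant factors, then the square of the number of elements of `Y` is at most
`3 ^ m * s * (s + q + (m + 1) * 2 ^ u)`. In particular, if the result is the weighted number of
models of the formula up to a constant factor, then `s * (s + q + (m + 1) * 2 ^ u) ≥ (4 / 3) ^ m`.

3. Such relations are, for example, the permutation matrices of size `N` (an extended formulation
with `N ^ 2` inequalities), the perfect matchings of the complete graph with `N` vertices (a cover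
of size `N ^ 4`), and the bases of any matroid with `N` elements (a cover of size `4 N ^ 2`). -/
theorem result :
    (∀ (n k M : ℕ) (φ : Formula n k M), ∃ ψ : Formula (n + M) 2 (M * k),
      ∀ w : Fin n → Bool → ℝ,
        wcount (Sat φ) w = wcount (Sat ψ) (Fin.append w fun _ b => if b then -1 else 1)) ∧
    (∀ (n k M : ℕ) (φ : Formula n k M), (∃ x, Sat φ x) →
      ∃ ψ : Formula (n + M * k) 2 (M * k * k),
        ∀ w : Fin n → Bool → ℝ, (∀ i b, 0 < w i b) → ∀ P Q D : ℝ,
          P = (∏ i, (w i false + w i true)) ^ 2 → Q = ∏ i, w i false * w i true →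
          D = ((P + Q) * Q ^ (k - 1)) ^ M →
          wcount (Sat φ) w ≤
            wcount (Sat ψ) (Fin.append w fun _ b => if b then P else Q) / D ∧
          wcount (Sat ψ) (Fin.append w fun _ b => if b then P else Q) / D ≤
            2 * wcount (Sat φ) w) ∧
    (∃ C D : ℝ, 0 < D ∧ ∀ k : ℕ, 2 ≤ k → ∃ n₀ : ℕ, ∀ n : ℕ, n₀ ≤ n →
      ∀ ε : ℝ, ε = Real.log k ^ 2 / k → ∀ M : ℕ, ⌊D * ε * n * 2 ^ k⌋₊ ≤ M →
      2 ^ n * Nat.card {φ : Formula n k M // ¬ HardForReductions φ ((2 : ℝ) ^ (C * ε * n))} ≤
        Nat.card (Formula n k M) ∧
      (Nat.card {p : Formula n k M × (Fin n → Bool) // Sat p.1 p.2 ∧ ¬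
        (HardForReductions p.1 ((2 : ℝ) ^ (C * ε * n)) ∧
          (2 : ℝ) ^ (-(2 * ε * n)) * (2 ^ n * (1 - (1 / 2) ^ k) ^ M) ≤
            Nat.card {x // Sat p.1 x})} : ℝ) ≤
        (2 : ℝ) ^ (-(ε * n)) * Nat.card {p : Formula n k M × (Fin n → Bool) // Sat p.1 p.2}) ∧
    (∀ m : ℕ, (∃ M : ℕ, M ≤ 3 * (m * m) ∧ ∃ φ : Formula (m * m) 3 M,
        ∀ x, Sat φ x ↔ AndOr (m := m) x) ∧
      Nat.card {x // AndOr (m := m) x} = 2 ^ m ∧
      ∀ (u q s : ℕ) (R : Reduction (fun _ ψ => SchaeferUnion u ψ ∨ ExtendedFormulation q ψ ∨
          Cover q ψ) (m * m) s) (r : Fin s) (Y : (Fin (m * m) → Bool) → Prop),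
        Between R r Y (AndOr (m := m)) →
        Nat.card {x // Y x} ^ 2 ≤ 3 ^ m * (s * (s + q + (m + 1) * 2 ^ u))) ∧
    (∀ N : ℕ, ExtendedFormulation (N * N) (IsPerm (N := N))) ∧
    (∀ N : ℕ, Cover ((N * N) ^ 2) (IsMatching (N := N))) ∧
    (∀ (N : ℕ) (B : Matroid (Fin N)),
      Cover ((2 * N) ^ 2) fun y : Fin N → Bool => B.IsBase {i | y i = true}) := by
  refine ⟨?_, ?_, ?_, ?_, ?_, ?_, ?_⟩
  · intro n k M φ
    exact ⟨Pool.Agent.SFP.two φ, Pool.Agent.SFP.thm_Cnv φ⟩
  · intro n k M φ hφ
    exact ⟨Pool.Agent.SFP.twd φ, fun w hw P Q D hP hQ hD =>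
      Pool.Agent.SFP.thm_Dvi φ w hw hφ P Q D hP hQ hD⟩
  · obtain ⟨C, D, hD, hC⟩ := Pool.Agent.STP.thm_Two (Pool.Agent.STP.thm_Cor
      (Pool.Agent.STS.thm_SumL (Pool.Agent.STH.thm_Cyl Pool.Agent.STH.thm_Nod)
        (Pool.Agent.STS.thm_CylL Pool.Agent.STS.thm_NodL) Pool.Agent.STS.thm_PthL)
      Pool.Agent.STH.thm_Bal
      (Pool.Agent.STP.thm_Bad (Pool.Agent.STH.thm_One Pool.Agent.STH.thm_Cls
        Pool.Agent.STH.thm_Tup Pool.Agent.STH.thm_Bal) Pool.Agent.STD.thm_Grd
        Pool.Agent.STS.thm_Tri)
      Pool.Agent.STD.thm_Den Pool.Agent.STS.thm_Scl Pool.Agent.STS.thm_Afd)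
      Pool.Agent.STP.thm_Tot Pool.Agent.STP.thm_Few Pool.Agent.STP.thm_Ext
    refine ⟨C, D, hD, fun k hk => ?_⟩
    obtain ⟨n₀, hn₀⟩ := hC k hk
    refine ⟨n₀, fun n hn ε hε M hM => ?_⟩
    obtain ⟨hu, hp⟩ := hn₀ n hn ε hε M hM
    have hgd : ∀ φ : Formula n k M,
        Pool.Agent.STP.Gd (Pool.Agent.STH.Mod φ) ((2 : ℝ) ^ (C * ε * n)) →
        HardForReductions φ ((2 : ℝ) ^ (C * ε * n)) := by
      rintro φ ⟨S, hS1, hS5, hdense, hthin, _⟩ m s R r Y ⟨α, β, hα, h⟩
      exact Pool.Agent.SFR.red_hard (Pool.Agent.SFR.thm_WlkG Pool.Agent.SFR.thm_Opt)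
        Pool.Agent.SFR.thm_Sup (Pool.Agent.STH.Mod φ) S _ hS1 hS5 hdense hthin m s
        ⟨R.val, R.ok⟩ r Y α β hα h
    refine ⟨le_trans (Nat.mul_le_mul_left _ ?_) hu, le_trans (Nat.cast_le.mpr ?_) hp⟩
    · refine Nat.card_le_card_of_injective (fun φ => ⟨φ.1, fun hc => φ.2 (hgd φ.1 hc)⟩) ?_
      intro φ φ' h
      exact Subtype.ext (congrArg Subtype.val h :)
    · have hall : ∀ p : Formula n k M × (Fin n → Bool),
          (((2 : ℝ) ^ (-(2 * ε * n)) * (2 ^ n * (1 - (1 / 2) ^ k) ^ M) ≤
              ((Nat.card {x // Pool.Agent.STH.Mod p.1 x} : ℕ) : ℝ) ∧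
            Pool.Agent.STP.Gd (Pool.Agent.STH.Mod p.1) ((2 : ℝ) ^ (C * ε * n)) ∧
            (M = ⌊D * ε * n * 2 ^ k⌋₊ →
              Pool.Agent.STP.Prg p.1 ε ((2 : ℝ) ^ (C * ε * n)))) : Prop) →
          (HardForReductions p.1 ((2 : ℝ) ^ (C * ε * n)) ∧
            (2 : ℝ) ^ (-(2 * ε * n)) * (2 ^ n * (1 - (1 / 2) ^ k) ^ M) ≤
              Nat.card {x // Sat p.1 x}) := by
        rintro p ⟨h1, h2, _⟩
        exact ⟨hgd p.1 h2, h1⟩
      refine Nat.card_le_card_of_injective
        (fun p => ⟨p.1, p.2.1, fun hc => p.2.2 (hall p.1 hc)⟩) ?_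
      intro p p' hpp
      exact Subtype.ext (congrArg Subtype.val hpp :)
  · intro m
    obtain ⟨h1, h2⟩ := Pool.Agent.SFP.thm_EncX Pool.Agent.SFP.thm_Enc
      (finProdFinEquiv : Fin m × Fin m ≃ Fin (m * m))
    refine ⟨h1, h2, ?_⟩
    rintro u q s R r Y ⟨α, β, hα, h⟩
    exact Pool.Agent.SFP.thm_FinX Pool.Agent.SFP.thm_SupK Pool.Agent.SFP.thm_Yan
      Pool.Agent.SFP.thm_Sbc Pool.Agent.SFP.thm_Cov
      (Pool.Agent.SFP.thm_DecC Pool.Agent.SFP.thm_Lin Pool.Agent.SFP.thm_Prm
        Pool.Agent.SFP.thm_Thn Pool.Agent.SFR.thm_Opt Pool.Agent.SFP.thm_Sbc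
        Pool.Agent.SFP.thm_Cov Pool.Agent.SFP.thm_KWC)
      finProdFinEquiv u q s ⟨R.val, R.ok⟩ r Y α β hα h
  · exact Pool.Agent.SFP.thm_Bir
  · exact Pool.Agent.SFP.thm_Haf
  · intro N B
    exact Pool.Agent.SFP.thm_Exc N _ (Pool.Agent.SFP.thm_Mat N B)

end Pool.Agent.Results.MP_4ed1f9_lc.MonotoneReductions
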