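import Pool.Agent.TSP.All3

/-!
# MP_4ed1f9_lc: time and memory of exact model counting

Exact (weighted) model counters - dynamic programming on decompositions, DPLL with components and caching,
knowledge compilers - compute the partition polynomial of a formula, explicitly or implicitly, with sums and products
of polynomials with nonnegative coefficients.  The polynomials which are still needed have to be kept in memory.

Here the formulas are the simplest ones of width `w`: the monotone 2-CNF with the clauses `x_u ∨ x_v`, `uv` an edge
of the grid with `w` rows and `w * L` columns.  With memory for `2 ^ (C w)` polynomials `2 ^ (C w) * L` steps are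
enough (transfer matrix).  Below `2 ^ (w / C)` polynomials the time jumps to at least `L ^ (w / C)`, and `L ^ (C w)`
steps are enough even with memory for `C log (w L)` polynomials.
-/

set_option autoImplicit false

namespace Pool.Agent.Results.MP_4ed1f9_lc.TimeMemory

open MvPolynomial
open scoped BigOperators

/-- Polynomials with nonnegative real coefficients in the weights of the literals: the indeterminate `(v, b)` is the
weight of the literal `v = b`. -/
abbrev Poly (V : Type) := MvPolynomial (V × Bool) NNReal

/-- `I` can be computed in one step from the polynomials in `M`.  It is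
* a leaf: any polynomial in the weights of the literals of at most `K` variables, or
* a combination, with nonnegative coefficients, of polynomials in `M`, each of which may be multiplied with factors
  `x (v, false) + x (v, true)` for any variables `v`, or
* the product of two polynomials in `M`. -/
def Step {V : Type} (K : ℕ) (M : Finset (Poly V)) (I : Poly V) : Prop :=
  (∃ U : Finset V, U.card ≤ K ∧ ∀ x ∈ I.vars, x.1 ∈ U) ∨
  (∃ (c : Poly V → NNReal) (Y : Poly V → Finset V),
    I = ∑ J ∈ M, MvPolynomial.C (c J) * J * ∏ v ∈ Y J, (X (v, false) + X (v, true))) ∨
  ∃ J ∈ M, ∃ K ∈ M, I = J * K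

/-- A program with `T` steps and memory for `S` polynomials: `M t` is the content of the memory after `t` steps.  In
every step one polynomial is computed, and any polynomials may be deleted. -/
structure Program {V : Type} (K S T : ℕ) (M : ℕ → Finset (Poly V)) : Prop where
  start : M 0 = ∅
  mem : ∀ t ≤ T, (M t).card ≤ S
  step : ∀ t < T, ∃ I, Step K (M t) I ∧ ∀ J ∈ M (t + 1), J = I ∨ J ∈ M t

open Classical in
/-- The partition polynomial of the 2-CNF formula with the clauses `x_u ∨ x_v`, `uv` an edge of the graph `G`: the sum,
over the assignments which satisfy all clauses, of the products of the weights of their literals. -/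
noncomputable def partition {V : Type} [Fintype V] (G : SimpleGraph V) : Poly V :=
  ∑ a ∈ Finset.univ.filter (fun a : V → Bool => ∀ u v, G.Adj u v → a u = true ∨ a v = true),
    ∏ v, X (v, a v)

/-- The grid with `w` rows and `l` columns. -/
abbrev grid (w l : ℕ) : SimpleGraph (Fin w × Fin l) :=
  SimpleGraph.pathGraph w □ SimpleGraph.pathGraph l

/-- The partition polynomial of the grid formula with `w` rows and `l` columns can be computed in at most `T` steps
with memory for `S` polynomials and leaves with at most `K` variables. -/
def Computable (K w l S T : ℕ) : Prop :=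
  ∃ T' ≤ T, ∃ M : ℕ → Finset (Poly (Fin w × Fin l)), Program K S T' M ∧
    partition (grid w l) ∈ M T'

private theorem partition_eq {V : Type} [Fintype V] (G : SimpleGraph V) :
    partition G = _root_.TSP.Part G := by
  unfold partition _root_.TSP.Part
  refine Finset.sum_congr ?_ fun _ _ => rfl
  ext a
  simp only [Finset.mem_filter, Finset.mem_univ, true_and]
  rfl

/-- **Time and memory of exact counting.**  There is `C` such that for all `w ≥ C`, `k ≥ 1` and `L ≥ 2 k`, for the
grid formula with `w` rows and `w * L` columns and its partition polynomial `P`:

1. if the memory has room for `S ≤ 2 ^ (w / C)` polynomials, the leaves have at most `k w ^ 2` variables, and the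
  last polynomial has only monomials of `P`, a fraction `p` of them, then the number `T` of steps is at least
  `p * (L / k) ^ (w / C)`;
2. with leaves of `k w ^ 2` variables, memory for `C log (L / k)` polynomials and `(L / k) ^ (C w)` steps are enough
  for `P`;
3. with leaves of one variable, memory for `C log (w L)` polynomials and `L ^ (C w)` steps are enough;
4. with leaves of one variable, memory for `2 ^ (C w)` polynomials and `2 ^ (C w) * L` steps are enough. -/
theorem result : ∃ C : ℕ, 1 ≤ C ∧ ∀ w k L : ℕ, C ≤ w → 1 ≤ k → 2 * k ≤ L →
    (∀ (S T : ℕ) (M : ℕ → Finset (Poly (Fin w × Fin (w * L)))) (I : Poly (Fin w × Fin (w * L))),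
      S ^ C ≤ 2 ^ w → Program (k * w ^ 2) S T M → I ∈ M T →
      I.support ⊆ (partition (grid w (w * L))).support →
      I.support.card ^ C * L ^ w ≤
        (T * (partition (grid w (w * L))).support.card) ^ C * k ^ w) ∧
    Computable (k * w ^ 2) w (w * L) (C * Nat.log 2 (L / k)) ((L / k) ^ (C * w)) ∧
    Computable 1 w (w * L) (C * Nat.log 2 (w * L)) (L ^ (C * w)) ∧
    Computable 1 w (w * L) (2 ^ (C * w)) (2 ^ (C * w) * L) := by
  have conv : ∀ {K w l S T : ℕ}, _root_.TSP.Cmp K w l S T → Computable K w l S T := by
    rintro K w l S T ⟨T', hT', M, hM, hP⟩
    refine ⟨T', hT', M, ⟨hM.start, hM.mem, hM.step⟩, ?_⟩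
    rw [partition_eq]
    exact hP
  obtain ⟨C, hC, h⟩ := _root_.TSP.all_Main3
  refine ⟨C, hC, fun w k L hw hk hL => ?_⟩
  obtain ⟨h1, h2, h3, h4⟩ := h w k L hw hk hL
  refine ⟨?_, conv h2, conv h3, conv h4⟩
  rw [partition_eq]
  exact fun S T M I hS hM hI hsub => h1 S T M I hS ⟨hM.start, hM.mem, hM.step⟩ hI hsub

end Pool.Agent.Results.MP_4ed1f9_lc.TimeMemory
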